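import Pool.Agent.ANO5.Conc.Rel

/-!
# ANO5, module Cnt: the periodic points are finitely many modulo the group

`finite_of_bound`: if the number of orbits of `perN D T j` is bounded, uniformly in `j > 0`, then
there are only finitely many orbits of periodic points.  `finite_of_self`: a set which meets
finitely many orbits of the large group `D`, and on which `D` acts by elements of `H`, meets only
finitely many orbits of `H`.
-/

set_option autoImplicit false

open Set Filter Topology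

namespace Pool.Agent.ANO5.A3.Cnt

open Pool.Agent.ANO.Dyn Pool.Agent.ANO3.Cnt Pool.Agent.ANO5.Conc

section

variable {X : Type} [MetricSpace X] {D : Subgroup (Equiv.Perm X)} {T : X ≃ₜ X}

private theorem npow_Bound (h : Norm D T) (n : ℕ) {a : Equiv.Perm X} (ha : a ∈ D) :
    ∃ a' ∈ D, ∀ x, (T ^ n) (a x) = a' ((T ^ n) x) := by
  obtain ⟨a', h1, h2⟩ := h.zpow (n : ℤ) a ha
  refine ⟨a', h1, fun x => ?_⟩
  have h3 := h2 x
  rwa [zpow_natCast] at h3

theorem perN_mul (h : Norm D T) {n : ℕ} {x : X} (hx : x ∈ perN D T n) (j : ℕ) :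
    x ∈ perN D T (n * j) := by
  obtain ⟨a, ha, hax⟩ := hx
  have h0 : (T ^ n) x = (a⁻¹ : Equiv.Perm X) x := by
    rw [eq_comm, Equiv.Perm.inv_eq_iff_eq]
    exact hax.symm
  induction j with
  | zero => exact ⟨1, one_mem _, rfl⟩
  | succ j ih =>
    obtain ⟨c, hc, hcx⟩ := ih
    obtain ⟨b, hb, hb'⟩ := npow_Bound h (n * j) (inv_mem ha)
    refine ⟨c * b⁻¹, mul_mem hc (inv_mem hb), ?_⟩
    have h1 : (T ^ (n * (j + 1))) x = b ((T ^ (n * j)) x) := by
      rw [← hb', ← h0, Nat.mul_succ, pow_add]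
      rfl
    have h2 : (b⁻¹ : Equiv.Perm X) (b ((T ^ (n * j)) x)) = (T ^ (n * j)) x :=
      b.symm_apply_apply _
    rw [h1, Equiv.Perm.mul_apply, h2, hcx]

theorem finite_of_bound (h : Norm D T) {N : ℕ} (hN : ∀ j, 0 < j →
    ((fun q => MulAction.orbit D q) '' perN D T j).encard ≤ N) :
    ((fun q => MulAction.orbit D q) '' Per D T).Finite := by
  classical
  by_contra hinf
  obtain ⟨t, ht, htc⟩ := Set.Infinite.exists_subset_card_eq hinf (N + 1)
  have h1 : ∀ o, ∃ j : ℕ, o ∈ t → 0 < j ∧ o ∈ (fun q => MulAction.orbit D q) '' perN D T j := by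
    intro o
    by_cases ho : o ∈ t
    · obtain ⟨x, ⟨m, hm, a, ha, hx⟩, rfl⟩ := ht ho
      exact ⟨m, fun _ => ⟨hm, x, ⟨a, ha, hx⟩, rfl⟩⟩
    · exact ⟨0, fun h => absurd h ho⟩
  choose J hJ using h1
  have h2 : (t : Set (Set X)) ⊆
      (fun q => MulAction.orbit D q) '' perN D T (∏ o ∈ t, J o) := by
    intro o ho
    obtain ⟨x, hx, rfl⟩ := (hJ o ho).2
    refine ⟨x, ?_, rfl⟩
    obtain ⟨l, hl⟩ := Finset.dvd_prod_of_mem J (Finset.mem_coe.1 ho)
    rw [hl]
    exact perN_mul h hx l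
  have h3 := (encard_le_encard h2).trans (hN _ (Finset.prod_pos fun o ho => (hJ o ho).1))
  rw [encard_coe_eq_coe_finsetCard, htc] at h3
  have h4 : N + 1 ≤ N := by exact_mod_cast h3
  omega

end

/-- A set on which `D` acts by elements of `H` meets finitely many orbits of `H` if it meets
finitely many orbits of `D`. -/
theorem finite_of_self {X : Type} {D H : Subgroup (Equiv.Perm X)} {Q A : Set X}
    (hA : A.Finite) (hQA : ∀ x ∈ Q, ∃ g ∈ D, g x ∈ A)
    (hself : ∀ a ∈ D, ∀ z ∈ Q, a z ∈ Q → a ∈ H) :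
    ((fun q => MulAction.orbit H q) '' Q).Finite := by
  classical
  let P : X → X → Prop := fun f x => x ∈ Q ∧ ∃ g ∈ D, g x = f
  let w : X → X := fun f => if h : ∃ x, P f x then h.choose else f
  refine ((hA.image w).image fun q => MulAction.orbit H q).subset ?_
  rintro _ ⟨x, hx, rfl⟩
  obtain ⟨g, hg, hgx⟩ := hQA x hx
  have hex : ∃ x', P (g x) x' := ⟨x, hx, g, hg, rfl⟩
  have hw : w (g x) = hex.choose := dif_pos hex
  obtain ⟨h1, g', hg', h2⟩ := hex.choose_spec
  rw [← hw] at h1 h2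
  refine ⟨w (g x), ⟨g x, hgx, rfl⟩, ?_⟩
  have h3 : (g⁻¹ * g') (w (g x)) = x := by
    rw [Equiv.Perm.mul_apply, h2]
    exact g.symm_apply_apply x
  have h4 : g⁻¹ * g' ∈ H := by
    refine hself _ (mul_mem (inv_mem hg) hg') _ h1 ?_
    rw [h3]
    exact hx
  show MulAction.orbit H (w (g x)) = MulAction.orbit H x
  rw [eq_comm, MulAction.orbit_eq_iff]
  exact ⟨⟨_, h4⟩, h3⟩

end Pool.Agent.ANO5.A3.Cnt
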