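import Pool.Agent.ANO3.Cnt.Close
import Pool.Agent.ANO5.A2.Dim.Lift
import Pool.Agent.ANO5.A2.Dyn.Main
import Pool.Agent.ANO5.End.Concrete
import Pool.Agent.ANO5.Lev.Coord
import Pool.Agent.ANO5.Lin.Future

/-!
# ANO5, module Cnt: brackets

`bracket_NL`: close points have a bracket for all the tree distances and the torus functions.
-/

set_option autoImplicit false

open Set Filter Topology
open scoped UpperHalfPlane MatrixGroups

namespace Pool.Agent.ANO5.A3.Cnt

open Pool.Agent.ANO3 Pool.Agent.ANO3.Tree Pool.Agent.ANO5.A1 Pool.Agent.ANO5.A2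
  Pool.Agent.ANO5.Lin Pool.Agent.ANO5.Lev Pool.Agent.ANO5.A3.End

/-- The pseudo-distance of two points with close futures is `0`. -/
theorem DU_future [Fib] {r : ℕ} {T₀ T : X r ≃ₜ X r} {S : Fin r → SurfaceMap}
    {F : ∀ i, Flat (S i)} (h : Setting S T₀ T) {x y : X r}
    (hxy : ∀ n : ℕ, dist (T^[n] x) (T^[n] y) ≤ 1) (i : Fin r) :
    DU F T i (Sum.inr x) (Sum.inr y) = 0 := by
  obtain ⟨C, hC0, hC⟩ := abs_Dis_sub_le (F i) (h.isSys_X i)
  obtain ⟨C₁, hC₁⟩ := (F i).upper 1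
  have h1 : ∀ n : ℕ, DU F T i (Sum.inr (T^[n] x)) (Sum.inr (T^[n] y)) ≤ C + C₁ := by
    intro n
    have h2 := (abs_le.1 (hC (Sum.inr (T^[n] x)) (Sum.inr (T^[n] y)))).2
    have h3 : dist ((T^[n] x).1 i) ((T^[n] y).1 i) ≤ 1 :=
      (dist_le_pi_dist _ _ i).trans ((le_max_left _ _).trans (hxy n))
    have h4 := (hC₁ _ _ h3).1
    have h5 : (F i).du (pr (pX i) (Sum.inr (T^[n] x))) (pr (pX i) (Sum.inr (T^[n] y))) =
      (F i).du ((T^[n] x).1 i) ((T^[n] y).1 i) := rfl
    rw [h5] at h2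
    show Dis (F i) (pX i) T _ _ ≤ _
    linarith
  have hl0 : 0 < (F i).l := lt_trans one_pos (F i).one_lt
  have h6 : ∀ n : ℕ, (F i).l ^ n * DU F T i (Sum.inr x) (Sum.inr y) ≤
      DU F T i (Sum.inr (T^[n] x)) (Sum.inr (T^[n] y)) := by
    intro n
    induction n with
    | zero => simp
    | succ n ih =>
      have h7 := (Dis_step (F i) (h.isSys_X i) (Sum.inr (T^[n] x)) (Sum.inr (T^[n] y))).1
      rw [Function.iterate_succ_apply', Function.iterate_succ_apply']
      have h8 : (F i).l * DU F T i (Sum.inr (T^[n] x)) (Sum.inr (T^[n] y)) ≤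
        DU F T i (Sum.inr (T (T^[n] x))) (Sum.inr (T (T^[n] y))) := h7
      rw [pow_succ', mul_assoc]
      exact (mul_le_mul_of_nonneg_left ih hl0.le).trans h8
  have h0 := (isTree_DU (F := F) h i).nonneg (Sum.inr x) (Sum.inr y)
  by_contra hne
  have hpos : 0 < DU F T i (Sum.inr x) (Sum.inr y) := lt_of_le_of_ne h0 (Ne.symm hne)
  obtain ⟨n, hn⟩ := (tendsto_pow_atTop_atTop_of_one_lt (F i).one_lt).eventually_gt_atTop
    ((C + C₁) / DU F T i (Sum.inr x) (Sum.inr y)) |>.exists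
  rw [div_lt_iff₀ hpos] at hn
  exact absurd ((h6 n).trans (h1 n)) (not_le.2 hn)

variable [TFib] {r : ℕ} {S : Fin r → SurfaceMap} {D : TData S}
  {D' : TData fun i => rev (S i)} {T₀ T : X r ≃ₜ X r}

theorem bracket_NL (F : ∀ i, Flat (S i)) (h : Sit D D' T₀ T) (hA : IsAnosovLift (surf S) T) :
    Bracket F T (tu D T) (tu D' T.symm) := by
  intro b
  have hsh : Pool.Agent.ANO.Dyn.Shadowing T := by
    have h1 := (A2.Dyn.main hA one_pos).2
    rwa [pow_one] at h1
  obtain ⟨δ, hδ, h1⟩ := Pool.Agent.ANO3.Cnt.bracket hsh one_pos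
  refine ⟨Metric.ball b (δ / 2), Metric.ball_mem_nhds b (by positivity), fun x hx y hy => ?_⟩
  have hxy : dist x y ≤ δ := by
    have h2 := dist_triangle_right x y b
    rw [Metric.mem_ball] at hx hy
    linarith
  obtain ⟨p, hp, hp'⟩ := h1 x y hxy
  have e1 : ∀ j z, (T ^ j) z = T^[j] z := fun j z => A2.Dim.pow_apply T j z
  have e2 : ∀ j z, (T ^ j).symm z = T.symm^[j] z := by
    intro j z
    rw [Homeomorph.symm_apply_eq, e1]
    exact (Function.LeftInverse.iterate T.apply_symm_apply j z).symm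
  have f1 : ∀ j : ℕ, dist (T^[j] x) (T^[j] p) ≤ 1 := fun j => by
    rw [← e1, ← e1, dist_comm]
    exact hp j
  have f2 : ∀ j : ℕ, dist (T.symm^[j] y) (T.symm^[j] p) ≤ 1 := fun j => by
    rw [← e2, ← e2, dist_comm]
    exact hp' j
  refine ⟨p, fun i => ⟨DU_future h.set f1 i,
    DU_future (F := fun i => (F i).rev) h.set.symm f2 i⟩, ?_, ?_⟩
  · exact Subtype.ext (TU_future h.set h.model f1).symm
  · exact Subtype.ext (TU_future h.set.symm h.model' f2).symm

end Pool.Agent.ANO5.A3.Cnt
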