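import Pool.Agent.ANO5.A3.Cnt.Single
import Pool.Agent.ANO5.Lev.Level

/-!
# ANO5, module Cnt: the lifts which preserve a type with a level

`th0`: the torus coordinate of the model (the sum of the two torus functions of `T₀`).
`exists_isFix_lev`: the lift `T' = dk γ δ ∘ T^m` of a level is a lift as in `Hyp.IsFix`, and the
model changes `th0 - (c.1 + c.2)` by `A^m` on the points of the type.
-/

set_option autoImplicit false

open Set Filter Topology
open scoped UpperHalfPlane MatrixGroups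

namespace Pool.Agent.ANO5.A3.Cnt

open Pool.Agent.ANO3 Pool.Agent.ANO3.Cnt Pool.Agent.ANO5.Conc Pool.Agent.ANO5.A1
  Pool.Agent.ANO5.A2 Pool.Agent.ANO5.A3.Grp Pool.Agent.ANO5.Hyp Pool.Agent.ANO5.Lin
  Pool.Agent.ANO5.Lev

variable [TFib] {r : ℕ} {S : Fin r → SurfaceMap} {D : TData S}
  {D' : TData fun i => rev (S i)} {T₀ T : X r ≃ₜ X r} {F : ∀ i, Flat (S i)} {κ : Fin r → ℍ}
  {m : ℕ} {γ : Fin r → SL(2, ℝ)} {δ : Equiv.Perm Fib.W}
  {c : (Fin TFib.k → ℝ) × (Fin TFib.k → ℝ)}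

variable (D D' T₀) in
/-- The torus coordinate of the model. -/
noncomputable def th0 (x : X r) : Fin TFib.k → ℝ := TU D T₀ x + TU D' T₀.symm x

theorem th0_deck (h : Sit D D' T₀ T) {a : Equiv.Perm (X r)} (ha : a ∈ Deck (surf S)) (x : X r) :
    th0 D D' T₀ (a x) = th0 D D' T₀ x + (chi D a + chi D' a) := by
  have hs := setting_self h.set
  have ha' : IsDeck (surf S) a := ha
  have ha'' : IsDeck (surf fun i => rev (S i)) a := ha
  have e1 := TU_act hs h.model ha' x
  have e2 := TU_act hs.symm h.model' ha'' x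
  unfold th0
  rw [e1, e2]
  abel

theorem th0_shift (h : Sit D D' T₀ T) (z : Fin r → ℍ) (y : TFib.base.W)
    (t s : Fin TFib.k → ℝ) :
    th0 D D' T₀ (z, (y, t + s)) = th0 D D' T₀ (z, (y, t)) + s := by
  have hs := setting_self h.set
  have e1 := TU_add h.model hs z y t s
  have e2 := TU_add h.model' hs.symm z y t s
  unfold th0
  rw [e1, e2, pr_inv' h]
  abel

theorem coe_model (h : Sit D D' T₀ T) : (T₀ : X r → X r) = Tor.skew S D.A D.τ :=
  funext h.model

theorem exists_isFix_lev (h : Sit D D' T₀ T) (hA : IsAnosovLift (surf S) T)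
    (hc : IsLevel F D D' T₀ κ m γ δ c) :
    ∃ (T' : X r ≃ₜ X r) (g : Equiv.Perm (X r)) (H : Fin r → ℍ ≃ₜ ℍ),
      IsFix F (Tor.skew S D.A D.τ) T T' m g κ ∧ IsLift S T m T' H ∧
      (∀ x, T' x = dk γ δ (T^[m] x)) ∧ (∀ i z, H i z = γ i • (S i).f^[m] z) ∧
      ∀ x : X r, EqvS F x.1 κ → th0 D D' T₀ (g ((Tor.skew S D.A D.τ)^[m] x)) - (c.1 + c.2) =
        Lin.lin (D.A ^ m) (th0 D D' T₀ x - (c.1 + c.2)) := by
  obtain ⟨T', H, hl, hT', hH⟩ := exists_liftOf (S := S) T m hc.mem hc.mem'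
  obtain ⟨g, hg, hgx⟩ := exists_deck (isDeck_dk (S := S) hc.mem hc.mem')
  have hs := setting_self h.set
  have hfix : ∀ x : X r, EqvS F x.1 κ → EqvS F (g (T₀^[m] x)).1 κ := by
    intro x hx i
    have e1 : (g (T₀^[m] x)).1 i = γ i • (S i).f^[m] (x.1 i) := by
      rw [hgx, ← cover_iter (fun x i => hs.cover i x)]
      rfl
    rw [e1, ← hH]
    have h2 := hc.eqv i
    rw [← hH] at h2
    have h3 := (Flat.du_lift_zero (F i) (hl.liftPow i) (a := x.1 i) (b := κ i)).2 (hx i).1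
    have h4 := (Flat.ds_lift_zero (F i) (hl.liftPow i) (a := x.1 i) (b := κ i)).2 (hx i).2
    have tu := (F i).isTree_u
    have ts := (F i).isTree_s
    exact ⟨(tu.congr_left h3 _).trans ((tu.symm _ _).trans h2.1),
      (ts.congr_left h4 _).trans ((ts.symm _ _).trans h2.2)⟩
  rw [← coe_model h]
  refine ⟨T', g, H, ⟨hA, hc.pos, hg, T₀.continuous, fun x i => hs.cover i x, h.set.hom,
    fun x => ?_, hfix⟩, hl, hT', hH, fun x hx => ?_⟩
  · rw [hT', hgx, pow_eq_iterate]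
  · have e0 : g (T₀^[m] x) = dk γ δ (T₀^[m] x) := hgx _
    have e1 := hc.u T₀ hs x fun i => by
      rw [Lev.DU_self hs]
      exact ((F i).isTree_u.symm _ _).trans (hx i).1
    have e2 := hc.s T₀ hs x fun i => by
      rw [Lev.DS_self hs]
      exact ((F i).isTree_s.symm _ _).trans (hx i).2
    rw [← e0] at e1 e2
    have e3 : (Lin.lin D.A ^ m) (TU D' T₀.symm x - c.2) = TU D' T₀.symm (g (T₀^[m] x)) - c.2 := by
      rw [e2]
      have h5 : ∀ v, (Lin.lin D.A ^ m) ((Lin.lin D'.A ^ m) v) = v := fun v => by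
        have h6 : Function.Injective (Lin.lin D'.A ^ m) := by
          rw [h.inv, ← Lin.lin_pow]
          have h7 := lin_injective (A := D.A⁻¹) ?_ m
          · exact h7
          · exact Lin.hyp_inv h.hyp
        apply h6
        rw [lin_inv_pow h]
      exact h5 _
    unfold th0
    rw [Lin.lin_pow]
    have e4 : TU D T₀ (g (T₀^[m] x)) + TU D' T₀.symm (g (T₀^[m] x)) - (c.1 + c.2) =
        (TU D T₀ (g (T₀^[m] x)) - c.1) + (TU D' T₀.symm (g (T₀^[m] x)) - c.2) := by abel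
    have e5 : TU D T₀ x + TU D' T₀.symm x - (c.1 + c.2) =
        (TU D T₀ x - c.1) + (TU D' T₀.symm x - c.2) := by abel
    rw [e4, e5, map_add, e1, e3]

end Pool.Agent.ANO5.A3.Cnt
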