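import Pool.Agent.ANO5.A3.Cnt.Bound
import Pool.Agent.ANO5.A3.Grp.Orbits
import Pool.Agent.ANO3.Cnt.Count
import Pool.Agent.ANO5.A2.Dim.Lift

/-!
# ANO5, module Cnt: periodic points, countable sets and unique fixed points (general part)

`T` is an Anosov lift, `T' = g T ^ m` (`LiftOf S T m T'`), `H` is a group of deck transformations
which is normalized by `T'`.

`finite_per`: `T'` has only finitely many periodic points modulo `H` if all powers of `T` are
homotopic to nondegenerate maps `G` such that the fixed points of `h g G`, `h ∈ H`, are in one set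
`Q` (`g G ~ T' ^ j`), where `Q` is finite modulo `H` and only elements of `H` map points of `Q` to
points of `Q`.  The index gives that the number of orbits of `H` on the points of period `j` is at
most the number of its orbits on `Q`.

`countable`: a set which is invariant and compact modulo `H` is countable.
-/

set_option autoImplicit false

open Set Filter Topology
open scoped UpperHalfPlane MatrixGroups

namespace Pool.Agent.ANO5.A3.Cnt

open Pool.Agent.ANO3.Cnt Pool.Agent.ANO5.Conc Pool.Agent.ANO5.A1 Pool.Agent.ANO5.A2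
  Pool.Agent.ANO5.A3.Grp

variable [Fib] {r : ℕ} {S : Fin r → ClosedSurface} {T T' : A1.X r ≃ₜ A1.X r} {m : ℕ}
  {H : Subgroup (Equiv.Perm (A1.X r))}

/-- the group is normalized by the model of `T' ^ j` -/
private theorem norm_Per (hHD : H ≤ Deck S) (hN : Norm H T') {j : ℕ} {G : A1.X r → A1.X r}
    (hom : Homotopic S G (T ^ (m * j) : A1.X r ≃ₜ A1.X r)) {g : Equiv.Perm (A1.X r)}
    (hg : g ∈ Deck S) (hT : ∀ x, (T' ^ j) x = g ((T ^ (m * j)) x)) :
    ∀ a ∈ H, ∃ a' ∈ H, ∀ p, g (G (a p)) = a' (g (G p)) := by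
  intro a ha
  obtain ⟨a', ha', h1⟩ := hN.zpow (j : ℤ) a ha
  obtain ⟨b, hb, h2, h3⟩ := homotopic_comp hom hg a (hHD ha)
  obtain ⟨b', hb', h4⟩ := exists_deck hb
  refine ⟨a', ha', fun p => ?_⟩
  have h5 : a' = b' := by
    refine eq_of_apply_eq (S := S) (hHD ha') hb' (p := (T' ^ j) p) ?_
    have h6 := h1 p
    rw [zpow_natCast] at h6
    rw [← h6, h4, hT, hT]
    exact congrFun h3 p
  rw [h5, h4]
  exact congrFun h2 p

theorem finite_per (hF : IsAnosovLift S T) (hm : 0 < m) (hT' : Dim.LiftOf S T m T')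
    (hHD : H ≤ Deck S) (hN : Norm H T') {Q : Set (A1.X r)}
    (hQ : ((fun q => MulAction.orbit H q) '' Q).Finite)
    (hself : ∀ a ∈ Deck S, ∀ z ∈ Q, a z ∈ Q → a ∈ H)
    (hmod : ∀ j : ℕ, 0 < j → ∃ G : A1.X r → A1.X r, Continuous G ∧
      Homotopic S G (T ^ (m * j) : A1.X r ≃ₜ A1.X r) ∧ (∀ g ∈ Deck S, Nondeg (g ∘ G)) ∧
      ∀ g ∈ Deck S, (∀ x, (T' ^ j) x = g ((T ^ (m * j)) x)) → ∀ h ∈ H, ∀ x, h (g (G x)) = x →
        x ∈ Q) :
    ((fun q => MulAction.orbit H q) '' Per H T').Finite := by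
  refine finite_of_bound hN (N := ((fun q => MulAction.orbit H q) '' Q).ncard) fun j hj => ?_
  obtain ⟨G, hGc, hom, hnd, hGQ⟩ := hmod j hj
  obtain ⟨g₀, hg₀, h0⟩ := Dim.liftOf_pow hF hT' j
  obtain ⟨g, hg, h1⟩ := exists_deck hg₀
  have hT : ∀ x, (T' ^ j) x = g ((T ^ (m * j)) x) := fun x => by rw [h0, h1]
  have hsub : perPts H (g ∘ G) 1 ⊆ Q := by
    rintro x ⟨h, hh, hx⟩
    exact hGQ g hg hT h hh x hx
  have hfin := hQ.subset (image_mono (f := fun q => MulAction.orbit H q) hsub)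
  have h2 := encard_orbits_le hF (Nat.mul_pos hm hj) hGc hom hg hHD
    (norm_Per hHD hN hom hg hT) (m := 1) one_pos
    (fun a ha z hz hz' => hself a ha z (hsub hz) (hsub hz'))
    (fun h hh => by
      have e : (h ∘ (g ∘ G)^[1] : A1.X r → A1.X r) = (h * g : Equiv.Perm (A1.X r)) ∘ G := rfl
      rw [e]
      exact hnd _ (mul_mem (hHD hh) hg)) hfin
  have e : perN H T' j = perPts H (g ∘ (T ^ (m * j) : A1.X r ≃ₜ A1.X r)) 1 := by
    ext x
    constructor
    · rintro ⟨a, ha, hx⟩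
      refine ⟨a, ha, ?_⟩
      show a (g ((T ^ (m * j)) x)) = x
      rw [← hT, hx]
    · rintro ⟨a, ha, hx⟩
      refine ⟨a, ha, ?_⟩
      rw [hT]
      exact hx
  rw [e]
  refine h2.trans ((encard_le_encard (image_mono hsub)).trans ?_)
  rw [hQ.cast_ncard_eq]

theorem discrete (S : Fin r → ClosedSurface) (c c' : A1.X r) :
    {a : Equiv.Perm (A1.X r) | a ∈ Deck S ∧ dist (a c') c ≤ 1}.Finite := by
  have hK : IsCompact (Metric.closedBall c 1 ∪ {c'}) :=
    (isCompact_closedBall c 1).union isCompact_singleton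
  have h1 := (Dyn.deck_finite (S := S) hK).preimage
    (f := fun a : Equiv.Perm (A1.X r) => (a : A1.X r → A1.X r))
    (DFunLike.coe_injective.injOn)
  refine h1.subset ?_
  rintro a ⟨ha, hd⟩
  exact ⟨ha, c', Or.inr rfl, Or.inl hd⟩

/-- A set which is invariant and compact modulo `H` is countable. -/
theorem countable (hF : IsAnosovLift S T) (hm : 0 < m) (hT' : Dim.LiftOf S T m T')
    (hHD : H ≤ Deck S) (hN : Norm H T')
    (hfin : ((fun q => MulAction.orbit H q) '' Per H T').Finite) {R : Set (A1.X r)}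
    (hR : ∀ x ∈ R, T' x ∈ R ∧ T'.symm x ∈ R) {K : Set (A1.X r)} (hK : IsCompact K)
    (hRK : ∀ x ∈ R, ∃ a ∈ H, a x ∈ K) : R.Countable := by
  have hu := Dim.liftOf_uc hF hT'
  refine countable_of_cpt hN (Dim.liftOf_exp hF hm hT') (Dim.liftOf_sh hF hm hT') hu.1 hu.2
    hfin ?_ hR hK hRK
  intro c c'
  refine (discrete S c c').subset ?_
  rintro a ⟨ha, hd⟩
  exact ⟨hHD ha, hd⟩

/-- A bounded orbit is the fixed point if `T'` and its powers have only one fixed point. -/
theorem eq_of_bdd_orbit (hF : IsAnosovLift S T) (hm : 0 < m) (hT' : Dim.LiftOf S T m T')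
    {q : A1.X r} (hq : ∀ j : ℕ, 0 < j → ∀ c, (T' ^ j) c = c → c = q) {K : Set (A1.X r)}
    (hK : IsCompact K) {x : A1.X r} (hx : ∀ i : ℤ, (T' ^ i) x ∈ K) : x = q :=
  eq_of_bdd (Dim.liftOf_exp hF hm hT') (Dim.liftOf_sh hF hm hT') (Dim.liftOf_uc hF hT').1 hq
    hK hx

end Pool.Agent.ANO5.A3.Cnt
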