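import Pool.Agent.ANO5.Hyp.Model
import Pool.Agent.ANO5.Hyp.Stab
import Pool.Agent.ANO5.A3.Cnt.Per
import Pool.Agent.ANO3.Cnt.FinMod

/-!
# ANO5, module Cnt: the group of a type with a level

`TypeGrp F κ θ`: the deck transformations which preserve the type `κ` and the function `θ` (the
torus functions).  `Lev`: on the points of the type `κ` the model changes `θ` by the injective map
`L`.  `norm_typeGrp`: then the group is normalized.  `finite_per_lev`: in the hyperbolic case there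
are only finitely many periodic points modulo the group.
-/

set_option autoImplicit false

open Set Filter Topology
open scoped UpperHalfPlane MatrixGroups

namespace Pool.Agent.ANO5.A3.Cnt

open Pool.Agent.ANO3 Pool.Agent.ANO3.Cnt Pool.Agent.ANO5.Conc Pool.Agent.ANO5.A1
  Pool.Agent.ANO5.A2 Pool.Agent.ANO5.A3.Grp Pool.Agent.ANO5.Hyp

section

variable [Fib] {r : ℕ} {S : Fin r → SurfaceMap} {V : Type}

/-- The deck transformations which preserve the type `κ` and the function `θ`. -/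
def TypeGrp (F : ∀ i, Flat (S i)) (κ : Fin r → ℍ) (θ : X r → V) :
    Subgroup (Equiv.Perm (X r)) where
  carrier := {a | a ∈ Stab F κ ∧ ∀ x, θ (a x) = θ x}
  mul_mem' := by
    rintro a b ⟨ha, ha'⟩ ⟨hb, hb'⟩
    exact ⟨mul_mem ha hb, fun x => by rw [Equiv.Perm.mul_apply, ha', hb']⟩
  one_mem' := ⟨one_mem _, fun _ => rfl⟩
  inv_mem' := by
    rintro a ⟨ha, ha'⟩
    refine ⟨inv_mem ha, fun x => ?_⟩
    have h1 := ha' ((a⁻¹ : Equiv.Perm (X r)) x)
    have h2 : a ((a⁻¹ : Equiv.Perm (X r)) x) = x := a.apply_symm_apply x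
    rw [h2] at h1
    exact h1.symm

variable {F : ∀ i, Flat (S i)} {κ : Fin r → ℍ} {θ : X r → V}

theorem mem_typeGrp {a : Equiv.Perm (X r)} :
    a ∈ TypeGrp F κ θ ↔ a ∈ Stab F κ ∧ ∀ x, θ (a x) = θ x := Iff.rfl

theorem typeGrp_le (F : ∀ i, Flat (S i)) (κ : Fin r → ℍ) (θ : X r → V) :
    TypeGrp F κ θ ≤ Deck (surf S) := fun _ ha => stab_le F κ ha.1

/-- The model changes the function `θ` on the points of the type `κ` by `L`. -/
structure Lev (F : ∀ i, Flat (S i)) (T₀ : X r → X r) (κ : Fin r → ℍ) (g : Equiv.Perm (X r))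
    (m : ℕ) (θ : X r → V) (L : V → V) : Prop where
  deck : ∀ a ∈ Deck (surf S), ∀ x y, θ (a x) = θ x → θ (a y) = θ y
  inj : Function.Injective L
  step : ∀ x : X r, EqvS F x.1 κ → θ (g (T₀^[m] x)) = L (θ x)

variable {T₀ : X r → X r} {Φ T : X r ≃ₜ X r} {m : ℕ} {g : Equiv.Perm (X r)} {L : V → V}

theorem norm_typeGrp (h : IsFix F T₀ Φ T m g κ) (hL : Lev F T₀ κ g m θ L) :
    Norm (TypeGrp F κ θ) T := by
  refine ⟨fun a ha x y => (A2.Dyn.IsDeck.isometry (typeGrp_le F κ θ ha)).dist_eq x y,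
    fun a ha => ?_, fun a' ha' => ?_⟩
  · obtain ⟨a', h1, h2, h3⟩ := h.fwd ha.1
    have hx : EqvS F ((κ, Classical.arbitrary Fib.W) : X r).1 κ := EqvS.refl κ
    refine ⟨a', ⟨h1, fun y => ?_⟩, h3⟩
    refine hL.deck a' (stab_le F κ h1)
      (g (T₀^[m] ((κ, Classical.arbitrary Fib.W) : X r))) y ?_
    rw [← h2, hL.step _ (ha.1.2 _ hx), hL.step _ hx, ha.2]
  · obtain ⟨a, h1, h2, h3⟩ := h.bwd ha'.1
    have hx : EqvS F ((κ, Classical.arbitrary Fib.W) : X r).1 κ := EqvS.refl κ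
    refine ⟨a, ⟨h1, fun y => ?_⟩, fun x => by
      rw [Homeomorph.symm_apply_eq, h3, T.apply_symm_apply]⟩
    refine hL.deck a (stab_le F κ h1) ((κ, Classical.arbitrary Fib.W) : X r) y ?_
    refine hL.inj ?_
    rw [← hL.step _ hx, ← hL.step _ (h1.2 _ hx), h2, ha'.2]

theorem IsFix.liftOf (h : IsFix F T₀ Φ T m g κ) : A2.Dim.LiftOf (surf S) Φ m T :=
  ⟨g, h.deck, h.eq⟩

/-- The level of the iterates of the model. -/
theorem step_iterate (h : IsFix F T₀ Φ T m g κ) (hL : Lev F T₀ κ g m θ L) (n : ℕ) {x : X r}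
    (hx : EqvS F x.1 κ) :
    EqvS F ((g ∘ T₀^[m])^[n] x).1 κ ∧ θ ((g ∘ T₀^[m])^[n] x) = L^[n] (θ x) := by
  induction n with
  | zero => exact ⟨hx, rfl⟩
  | succ n ih =>
    rw [Function.iterate_succ_apply', Function.iterate_succ_apply']
    refine ⟨h.fix _ ih.1, ?_⟩
    have h1 := hL.step _ ih.1
    rw [ih.2] at h1
    exact h1

/-- The element of the deck group in `T ^ n = g' ∘ Φ ^ (m n)` is unique. -/
theorem eq_of_pow (h : IsFix F T₀ Φ T m g κ) {n : ℕ} (hn : 0 < n) {g' : Equiv.Perm (X r)}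
    (hg' : g' ∈ Deck (surf S)) (hT : ∀ x, (T ^ n) x = g' ((Φ ^ (m * n)) x)) :
    IsFix F T₀ Φ (T ^ n) (m * n) g' κ ∧ ∀ x, (g ∘ T₀^[m])^[n] x = g' (T₀^[m * n] x) := by
  obtain ⟨g'', h1, h2⟩ := h.pow hn
  have h3 : g' = g'' := by
    refine eq_of_apply_eq (S := surf S) (p := (Φ ^ (m * n)) (Classical.arbitrary (X r))) hg'
      h1.deck ?_
    rw [← hT, ← h1.eq]
  rw [h3]
  exact ⟨h1, h2⟩

end

/-! ### The torus factor -/

variable [TFib] {r : ℕ} {S : Fin r → SurfaceMap} {A : Matrix (Fin TFib.k) (Fin TFib.k) ℤ}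
  {τ : Tor.B r → Fin TFib.k → ℝ} {Φ T : X r ≃ₜ X r} {m : ℕ} {g : Equiv.Perm (X r)}
  {κ : Fin r → ℍ}

omit [TFib] in
theorem det_one_sub_ne {k : ℕ} {A : Matrix (Fin k) (Fin k) ℤ}
    (hA : Pool.Agent.ANO.IsHyperbolicMatrix A) {n : ℕ} (hn : 0 < n) : (1 - A ^ n).det ≠ 0 := by
  intro h0
  have h1 : ((1 - A ^ n).map (Int.cast : ℤ → ℝ)).det = 0 := by
    have h2 := RingHom.map_det (Int.castRingHom ℝ) (1 - A ^ n)
    rw [h0, map_zero] at h2
    exact h2.symm
  obtain ⟨v, hv0, hv⟩ := Matrix.exists_mulVec_eq_zero_iff.2 h1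
  refine hv0 (Lin.one_sub_injective hA hn ?_)
  rw [← Lin.lin_pow, Lin.lin_apply]
  have h3 : (1 - A ^ n).map (Int.cast : ℤ → ℝ) =
      1 - (A ^ n).map (Int.cast : ℤ → ℝ) := by
    have h4 := map_sub (Int.castRingHom ℝ).mapMatrix (1 : Matrix (Fin k) (Fin k) ℤ) (A ^ n)
    rw [map_one] at h4
    exact h4
  rw [h3, Matrix.sub_mulVec, Matrix.one_mulVec, sub_eq_zero] at hv
  exact hv.symm

omit [TFib] in
theorem lin_injective {k : ℕ} {A : Matrix (Fin k) (Fin k) ℤ}
    (hA : Pool.Agent.ANO.IsHyperbolicMatrix A) (m : ℕ) :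
    Function.Injective (Lin.lin (A ^ m)) := by
  have h1 : Function.Injective (Lin.lin A) := by
    refine Function.LeftInverse.injective (g := Lin.lin A⁻¹) fun v => ?_
    exact DFunLike.congr_fun (Lin.lin_inv hA).2 v
  induction m with
  | zero =>
    rw [pow_zero, Lin.lin_one]
    exact fun _ _ h => h
  | succ m ih =>
    rw [pow_succ, Lin.lin_mul]
    exact ih.comp h1

/-- In the hyperbolic case there are only finitely many periodic points modulo the group of the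
type. -/
theorem finite_per_lev (N : ∀ i, NormalForm (S i)) (hτ : Tor.IsTwist (surf S) τ)
    (hA : Pool.Agent.ANO.IsHyperbolicMatrix A)
    (h : IsFix (fun i => (N i).flat) (Tor.skew S A τ) Φ T m g κ)
    {θ : X r → Fin TFib.k → ℝ} {c : Fin TFib.k → ℝ}
    (hdeck : ∀ a ∈ Deck (surf S), ∀ x y, θ (a x) - θ x = θ (a y) - θ y)
    (hshift : ∀ (z : Fin r → ℍ) (y : TFib.base.W) (t s : Fin TFib.k → ℝ),
      θ (z, (y, t + s)) = θ (z, (y, t)) + s)
    (hstep : ∀ x : X r, EqvS (fun i => (N i).flat) x.1 κ →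
      θ (g ((Tor.skew S A τ)^[m] x)) - c = Lin.lin (A ^ m) (θ x - c))
    (hΛ : {l : Fin TFib.k → ℝ | (∀ j, l j ∈ Icc (0 : ℝ) 1) ∧
      ∃ a ∈ Stab (fun i => (N i).flat) κ, ∀ x, θ (a x) = θ x + l}.Finite) :
    Norm (TypeGrp (fun i => (N i).flat) κ θ) T ∧
    ((fun q => MulAction.orbit (TypeGrp (fun i => (N i).flat) κ θ) q) ''
      Per (TypeGrp (fun i => (N i).flat) κ θ) T).Finite := by
  have hL : Lev (fun i => (N i).flat) (Tor.skew S A τ) κ g m θ
      (fun v => c + Lin.lin (A ^ m) (v - c)) := by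
    refine ⟨fun a ha x y hx => ?_, fun v w hvw => ?_, fun x hx => ?_⟩
    · have h1 := hdeck a ha x y
      rw [hx, sub_self] at h1
      exact (sub_eq_zero.1 h1.symm)
    · have h1 := lin_injective hA m (add_left_cancel hvw)
      exact sub_left_injective h1
    · rw [← hstep x hx]
      abel
  have hLj : ∀ (j : ℕ) (v : Fin TFib.k → ℝ),
      (fun v => c + Lin.lin (A ^ m) (v - c))^[j] v = c + Lin.lin (A ^ (m * j)) (v - c) := by
    intro j v
    induction j with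
    | zero =>
      rw [Function.iterate_zero, Nat.mul_zero, pow_zero, Lin.lin_one]
      show v = c + (v - c)
      abel
    | succ j ih =>
      rw [Function.iterate_succ_apply', ih, Nat.mul_succ, add_comm (m * j) m, pow_add,
        Lin.lin_mul, add_sub_cancel_left]
      rfl
  have hN := norm_typeGrp h hL
  refine ⟨hN, ?_⟩
  obtain ⟨φ, ⟨P, hP, hφP⟩, hmod⟩ := exists_model N hτ h.hom
  have hself : ∀ a ∈ Deck (surf S),
      ∀ z ∈ {x : X r | (∀ i, IsPeriodic (S i) (x.1 i)) ∧ EqvS (fun i => (N i).flat) x.1 κ ∧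
        φ x.2.1 = x.2.1 ∧ θ x = c},
      a z ∈ {x : X r | (∀ i, IsPeriodic (S i) (x.1 i)) ∧ EqvS (fun i => (N i).flat) x.1 κ ∧
        φ x.2.1 = x.2.1 ∧ θ x = c} → a ∈ TypeGrp (fun i => (N i).flat) κ θ := by
    intro a ha z hz haz
    refine ⟨mem_stab ha hz.2.1 haz.2.1, fun x => ?_⟩
    have h1 := hdeck a ha x z
    rw [haz.2.2.2, hz.2.2.2, sub_self, sub_eq_zero] at h1
    exact h1
  refine finite_per h.lift h.pos (IsFix.liftOf h) (typeGrp_le _ κ θ) hN ?_ hself ?_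
  · choose B hB hB' using fun i => Pool.Agent.ANO3.Cnt.finite_one (N i) (κ i)
    have hinj : Function.Injective (fun f : X r => (f.1, f.2.1, θ f - c)) := by
      intro f f' hff
      have h1 : f.1 = f'.1 := congrArg (fun q => q.1) hff
      have h2 : f.2.1 = f'.2.1 := congrArg (fun q => q.2.1) hff
      have h3 : θ f - c = θ f' - c := congrArg (fun q => q.2.2) hff
      have h4 : ∀ x : X r, θ x = θ (x.1, (x.2.1, 0)) + x.2.2 := fun x => by
        rw [← hshift, zero_add]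
        rfl
      have h5 := sub_left_injective h3
      rw [h4 f, h4 f', h1, h2] at h5
      exact Prod.ext h1 (Prod.ext h2 (add_left_cancel h5))
    have hfin := ((Set.Finite.pi hB).prod (hP.prod hΛ)).preimage hinj.injOn
    refine finite_of_self (D := Deck (surf S)) hfin (fun x hx => ?_) hself
    choose γ hγ hγκ hγB using fun i => hB' i (x.1 i) (hx.1 i) (hx.2.1 i)
    obtain ⟨d, hd, hdP⟩ := hφP x.2.1 hx.2.2.1
    obtain ⟨a₀, ha₀, h0⟩ := exists_dkT (S := surf S) hγ hd 0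
    obtain ⟨v, hv⟩ : ∃ v : Fin TFib.k → ℤ, ∀ j, v j = -⌊(θ (a₀ x) - θ x) j⌋ := ⟨_, fun _ => rfl⟩
    obtain ⟨a, ha, ha'⟩ := exists_dkT (S := surf S) hγ hd v
    have e1 : θ (a x) = θ (a₀ x) + fun j => (v j : ℝ) := by
      rw [ha', h0]
      have h2 := hshift (fun i => γ i • x.1 i) (d x.2.1) x.2.2 (fun j => (v j : ℝ))
      have h3 : (dkT γ d 0 x : X r) = (fun i => γ i • x.1 i, (d x.2.1, x.2.2)) := by
        refine Prod.ext rfl (Prod.ext rfl (funext fun j => ?_))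
        show x.2.2 j + ((0 : Fin TFib.k → ℤ) j : ℝ) = x.2.2 j
        simp
      rw [h3, ← h2]
      rfl
    have hst : a ∈ Stab (fun i => (N i).flat) κ := by
      refine mem_stab ha hx.2.1 fun i => ?_
      have e2 : (a x).1 i = γ i • x.1 i := by rw [ha']; rfl
      rw [e2]
      have h3 : ((N i).flat).Eqv (γ i • x.1 i) (γ i • κ i) :=
        ⟨(Flat.du_smul _ (hγ i) _ _).trans (hx.2.1 i).1,
          (Flat.ds_smul _ (hγ i) _ _).trans (hx.2.1 i).2⟩
      exact ⟨(((N i).flat).isTree_u.congr_left h3.1 _).trans (hγκ i).1,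
        (((N i).flat).isTree_s.congr_left h3.2 _).trans (hγκ i).2⟩
    refine ⟨a, ha, ⟨fun i _ => ?_, ?_, fun j => ?_, a, hst, fun y => ?_⟩⟩
    · show (a x).1 i ∈ B i
      rw [ha']
      exact hγB i
    · show (a x).2.1 ∈ P
      rw [ha']
      exact hdP
    · show (θ (a x) - c) j ∈ Icc (0 : ℝ) 1
      have e3 : (θ (a x) - c) j = Int.fract ((θ (a₀ x) - θ x) j) := by
        rw [e1, ← hx.2.2.2]
        simp only [Pi.sub_apply, Pi.add_apply, hv, Int.cast_neg, Int.fract]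
        ring
      rw [e3]
      exact ⟨Int.fract_nonneg _, (Int.fract_lt_one _).le⟩
    · show θ (a y) = θ y + (θ (a x) - c)
      have h3 := hdeck a ha y x
      rw [hx.2.2.2] at h3
      rw [← h3]
      abel
  · intro j hj
    obtain ⟨G, hGc, hhom, hnd, hfix⟩ := hmod (m * j) (Nat.mul_pos h.pos hj)
      (det_one_sub_ne hA (Nat.mul_pos h.pos hj))
    refine ⟨G, hGc, hhom, hnd, fun g' hg' hT a ha x hx => ?_⟩
    obtain ⟨h1, h2⟩ := eq_of_pow h hj hg' hT
    obtain ⟨h3, h4⟩ := hfix (a * g') (mul_mem (typeGrp_le _ κ θ ha) hg') x hx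
    have h5 : a (g' ((Tor.skew S A τ)^[m * j] x)) = x := h3
    have h6 := h1.type_of_fix ha.1 h5
    refine ⟨fun i => h1.periodic_of_fix (typeGrp_le _ κ θ ha) h5 i, h6, h4, ?_⟩
    have h7 := (step_iterate h hL j h6).2
    rw [h2, hLj, ← ha.2 (g' ((Tor.skew S A τ)^[m * j] x)), h5] at h7
    have h8 : Lin.lin (A ^ (m * j)) (θ x - c) = θ x - c := by
      rw [eq_sub_iff_add_eq, add_comm]
      exact h7.symm
    rw [Lin.lin_pow] at h8
    exact sub_eq_zero.1 (Lin.one_sub_injective hA (Nat.mul_pos h.pos hj) h8)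

end Pool.Agent.ANO5.A3.Cnt
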