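import Pool.Agent.ANO5.A3.Cnt.Inst
import Pool.Agent.ANO5.Lev.Coord
import Pool.Agent.ANO5.End.Concrete

/-!
# ANO5, module Cnt: the points of a type with a level

`countable_NL`: the set of the points of a type with a level is countable.
`single_NL`: if the type is regular and `base` is a point then it has exactly one element.
-/

set_option autoImplicit false

open Set Filter Topology
open scoped UpperHalfPlane MatrixGroups

namespace Pool.Agent.ANO5.A3.Cnt

open Pool.Agent.ANO3 Pool.Agent.ANO3.Cnt Pool.Agent.ANO5.Conc Pool.Agent.ANO5.A1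
  Pool.Agent.ANO5.A2 Pool.Agent.ANO5.A3.Grp Pool.Agent.ANO5.Hyp Pool.Agent.ANO5.Lin
  Pool.Agent.ANO5.Lev Pool.Agent.ANO5.A3.End

variable [TFib] {r : ℕ} {S : Fin r → SurfaceMap} {D : TData S}
  {D' : TData fun i => rev (S i)} {T₀ T : X r ≃ₜ X r} {F : ∀ i, Flat (S i)} {κ : Fin r → ℍ}
  {m : ℕ} {γ : Fin r → SL(2, ℝ)} {δ : Equiv.Perm Fib.W} {e : VU D × VU D'}

theorem lin_pow_zero {A : Matrix (Fin TFib.k) (Fin TFib.k) ℤ}
    (hA : Pool.Agent.ANO.IsHyperbolicMatrix A) (m : ℕ) (v : Fin TFib.k → ℝ) :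
    (Lin.lin A ^ m) v = 0 ↔ v = 0 := by
  rw [← Lin.lin_pow]
  exact ⟨fun h => lin_injective hA m (h.trans (map_zero _).symm), fun h => by rw [h, map_zero]⟩

theorem hyp' (h : Sit D D' T₀ T) : Pool.Agent.ANO.IsHyperbolicMatrix D'.A := by
  rw [h.inv]
  exact Lin.hyp_inv h.hyp

theorem lev_iff (h : Sit D D' T₀ T)
    (hc : IsLevel F D D' T₀ κ m γ δ ((e.1 : Fin TFib.k → ℝ), (e.2 : Fin TFib.k → ℝ)))
    {x : X r} (hx : x ∈ NN F T κ κ) :
    (tu D T (dk γ δ (T^[m] x)) = e.1 ↔ tu D T x = e.1) ∧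
      (tu D' T.symm (dk γ δ (T^[m] x)) = e.2 ↔ tu D' T.symm x = e.2) := by
  have h1 := hc.u T h.set x fun i => (hx i).1
  have h2 := hc.s T h.set x fun i => (hx i).2
  rw [Subtype.ext_iff, Subtype.ext_iff, Subtype.ext_iff, Subtype.ext_iff, coe_tu, coe_tu, coe_tu,
    coe_tu, ← sub_eq_zero, ← sub_eq_zero (a := TU D T x),
    ← sub_eq_zero (a := TU D' T.symm (dk γ δ (T^[m] x))), ← sub_eq_zero (a := TU D' T.symm x)]
  refine ⟨?_, ?_⟩
  · rw [h1]
    exact lin_pow_zero h.hyp m _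
  · rw [h2]
    exact (lin_pow_zero (hyp' h) m _).symm

/-- The lift of the level preserves the set of the points of the type with the level. -/
theorem NL_lift (h : Sit D D' T₀ T)
    (hc : IsLevel F D D' T₀ κ m γ δ ((e.1 : Fin TFib.k → ℝ), (e.2 : Fin TFib.k → ℝ)))
    {T' : X r ≃ₜ X r} {H : Fin r → ℍ ≃ₜ ℍ} (hl : IsLift S T m T' H)
    (hT' : ∀ x, T' x = dk γ δ (T^[m] x)) (hH : ∀ i z, H i z = γ i • (S i).f^[m] z)
    (x : X r) : T' x ∈ NL F T (tu D T) (tu D' T.symm) κ κ e ↔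
      x ∈ NL F T (tu D T) (tu D' T.symm) κ κ e := by
  have he : ∀ i, (F i).Eqv (κ i) (H i (κ i)) := fun i => by
    rw [hH]
    exact hc.eqv i
  have h1 := mem_NN_lift (F := F) h.set hl κ κ x
  rw [← NN_congr (F := F) h.set (fun i => (he i).1) (fun i => (he i).2)] at h1
  constructor
  · rintro ⟨h2, h3, h4⟩
    have h5 := h1.1 h2
    have h6 := lev_iff h hc h5
    rw [← hT'] at h6
    exact ⟨h5, h6.1.1 h3, h6.2.1 h4⟩
  · rintro ⟨h2, h3, h4⟩
    have h6 := lev_iff h hc h2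
    rw [← hT'] at h6
    exact ⟨h1.2 h2, h6.1.2 h3, h6.2.2 h4⟩

/-- The set of the points of a type with a level is countable. -/
theorem countable_NL (N : ∀ i, NormalForm (S i)) (h : Sit D D' T₀ T)
    (hA : IsAnosovLift (surf S) T) (hR : RV (fun i => (N i).flat) D D' T₀ κ e)
    (hcpt : Cocpt (fun i => (N i).flat) T (tu D T) (tu D' T.symm) κ e)
    (hΛ : {l : Fin TFib.k → ℝ | (∀ j, l j ∈ Icc (0 : ℝ) 1) ∧
      ∃ a ∈ Stab (fun i => (N i).flat) κ, ∀ x, th0 D D' T₀ (a x) = th0 D D' T₀ x + l}.Finite) :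
    (NL (fun i => (N i).flat) T (tu D T) (tu D' T.symm) κ κ e).Countable := by
  obtain ⟨m, γ, δ, hc⟩ := hR
  obtain ⟨T', g, H, hfix, hl, hT', hH, hstep⟩ := exists_isFix_lev h hA hc
  obtain ⟨hN, hfin⟩ := finite_per_lev N D.tw h.hyp hfix (θ := th0 D D' T₀)
    (fun a ha x y => by rw [th0_deck h ha, th0_deck h ha, add_sub_cancel_left, add_sub_cancel_left])
    (fun z y t s => th0_shift h z y t s) hstep hΛ
  obtain ⟨ε, hε, K, hK, hx⟩ := hcpt
  have hinv := NL_lift (F := fun i => (N i).flat) h hc hl hT' hH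
  refine countable hA hfix.pos (IsFix.liftOf hfix) (typeGrp_le _ κ (th0 D D' T₀)) hN hfin
    (fun x hxR => ⟨(hinv x).2 hxR, ?_⟩) hK fun x hxR => ?_
  · rw [← hinv, T'.apply_symm_apply]
    exact hxR
  · obtain ⟨γ', δ', hγ', hδ', -, h1, h2, h3⟩ := hx x (fun i =>
      ⟨by rw [(hxR.1 i).1]; exact hε.le, by rw [(hxR.1 i).2]; exact hε.le⟩)
      (by rw [hxR.2.1, dist_self]; exact hε.le) (by rw [hxR.2.2, dist_self]; exact hε.le)
    obtain ⟨a, ha, ha'⟩ := exists_deck (isDeck_dk (S := S) hγ' hδ')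
    have hd1 : chi D a = 0 := by
      have h4 := TU_act h.set h.model (g := a) ha x
      have h5 := congrArg Subtype.val (h2 x).1
      rw [coe_tu, coe_tu, ← ha', h4] at h5
      exact add_eq_left.1 h5
    have hd2 : chi D' a = 0 := by
      have h4 := TU_act h.set.symm h.model' (g := a) ha x
      have h5 := congrArg Subtype.val (h2 x).2
      rw [coe_tu, coe_tu, ← ha', h4] at h5
      exact add_eq_left.1 h5
    refine ⟨a, ⟨?_, fun y => ?_⟩, by rw [ha']; exact h3⟩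
    · refine mem_stab ha (x := (κ, Classical.arbitrary Fib.W)) (EqvS.refl κ) ?_
      rw [ha']
      exact EqvS.symm (F := fun i => (N i).flat) h1
    · rw [th0_deck h ha, hd1, hd2, add_zero, add_zero]

end Pool.Agent.ANO5.A3.Cnt
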