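import Pool.Agent.ANO5.A3.Cnt.NL

/-!
# ANO5, module Cnt: the point of a regular type with a level

`single_NL`: if the type is regular and `base` is a point then there is exactly one point of the
type with the given level.  `isCompact_NL`: the set is compact.
-/

set_option autoImplicit false

open Set Filter Topology
open scoped UpperHalfPlane MatrixGroups

namespace Pool.Agent.ANO5.A3.Cnt

open Pool.Agent.ANO3 Pool.Agent.ANO3.Cnt Pool.Agent.ANO5.Conc Pool.Agent.ANO5.A1
  Pool.Agent.ANO5.A2 Pool.Agent.ANO5.A3.Grp Pool.Agent.ANO5.Hyp Pool.Agent.ANO5.Lin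
  Pool.Agent.ANO5.Lev Pool.Agent.ANO5.A3.End

variable [TFib] {r : ℕ} {S : Fin r → SurfaceMap} {D : TData S}
  {D' : TData fun i => rev (S i)} {T₀ T : X r ≃ₜ X r} {F : ∀ i, Flat (S i)} {κ : Fin r → ℍ}
  {m : ℕ} {γ : Fin r → SL(2, ℝ)} {δ : Equiv.Perm Fib.W} {e : VU D × VU D'}

theorem subsingleton_W (h0 : Module.finrank ℝ TFib.base.V = 0) : Subsingleton TFib.base.W := by
  have : Subsingleton TFib.base.V := Module.finrank_zero_iff.1 h0
  exact TFib.base.crd.injective.subsingleton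

theorem isCompact_NL (h : Sit D D' T₀ T) (h0 : Module.finrank ℝ TFib.base.V = 0)
    (hκ : ∀ i, (F i).Reg (κ i)) {κ' : Fin r → ℍ} :
    IsCompact (NL F T (tu D T) (tu D' T.symm) κ κ' e) := by
  have hW := subsingleton_W h0
  obtain ⟨K, hK, hx⟩ := bounded_NN (F := F) h.set (w'' := κ') hκ
  have hP : IsCompact ((univ.pi K) ×ˢ (univ : Set TFib.base.W)) :=
    (isCompact_univ_pi hK).prod (Set.subsingleton_univ.isCompact)
  have key : ∀ {S : Fin r → SurfaceMap} {D : TData S} {T₀ T : X r ≃ₜ X r}, Setting S T₀ T →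
      (∀ x, T₀ x = Tor.skew S D.A D.τ x) → ∃ C : ℝ, ∀ x : X r, (∀ i, x.1 i ∈ K i) →
        ‖D.sA.pr x.2.2‖ ≤ ‖TU D T x‖ + C := by
    intro S D T₀ T h hT₀
    obtain ⟨κ₀, C, hκ₀, hC⟩ := TUI_near h hT₀
    obtain ⟨C', hC'⟩ := hP.exists_bound_of_continuousOn hκ₀.continuousOn
    refine ⟨C + C', fun x hxK => ?_⟩
    have h1 := hC (1, x)
    rw [TUI_one] at h1
    have h2 := hC' (x.1, x.2.1) ⟨fun i _ => hxK i, mem_univ _⟩
    have h3 : D.sA.pr x.2.2 = TU D T x - (TU D T x - (D.sA.pr x.2.2 + κ₀ (x.1, x.2.1))) -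
        κ₀ (x.1, x.2.1) := by abel
    rw [h3]
    calc _ ≤ ‖TU D T x - (TU D T x - (D.sA.pr x.2.2 + κ₀ (x.1, x.2.1)))‖ + ‖κ₀ (x.1, x.2.1)‖ :=
          norm_sub_le _ _
      _ ≤ (‖TU D T x‖ + ‖TU D T x - (D.sA.pr x.2.2 + κ₀ (x.1, x.2.1))‖) + ‖κ₀ (x.1, x.2.1)‖ := by
          gcongr
          exact norm_sub_le _ _
      _ ≤ (‖TU D T x‖ + C) + C' := by
          gcongr
      _ = _ := by ring
  obtain ⟨C₁, h1⟩ := key h.set h.model
  obtain ⟨C₂, h2⟩ := key h.set.symm h.model'
  obtain ⟨R, hR⟩ : ∃ R : ℝ, R = (‖(e.1 : Fin TFib.k → ℝ)‖ + C₁) +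
      (‖(e.2 : Fin TFib.k → ℝ)‖ + C₂) := ⟨_, rfl⟩
  have hL : IsCompact ((univ : Set TFib.base.W) ×ˢ Metric.closedBall (0 : Fin TFib.k → ℝ) R) :=
    (Set.subsingleton_univ.isCompact).prod (isCompact_closedBall _ _)
  have hcl : IsClosed (NL F T (tu D T) (tu D' T.symm) κ κ' e) := by
    have e1 : NL F T (tu D T) (tu D' T.symm) κ κ' e =
        NN F T κ κ' ∩ ({x | tu D T x = e.1} ∩ {x | tu D' T.symm x = e.2}) := rfl
    rw [e1]
    exact (isClosed_NN h.set κ κ').inter ((isClosed_eq h.continuous_tu continuous_const).inter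
      (isClosed_eq h.continuous_ts continuous_const))
  refine (isCompact_box hK hL).of_isClosed_subset hcl fun x hxN => ⟨fun i => hx x hxN.1 i,
    mem_univ _, ?_⟩
  rw [mem_closedBall_zero_iff, hR]
  have h3 := h1 x fun i => hx x hxN.1 i
  have h4 := h2 x fun i => hx x hxN.1 i
  have h5 : TU D T x = e.1 := congrArg Subtype.val hxN.2.1
  have h6 : TU D' T.symm x = e.2 := congrArg Subtype.val hxN.2.2
  rw [h5] at h3
  rw [h6] at h4
  have h7 : x.2.2 = D.sA.pr x.2.2 + D'.sA.pr x.2.2 := by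
    rw [pr_inv' h]
    abel
  rw [h7]
  exact (norm_add_le _ _).trans (add_le_add h3 h4)

/-- There is exactly one point of a regular type with a given level. -/
theorem single_NL (N : ∀ i, NormalForm (S i)) (h : Sit D D' T₀ T)
    (hA : IsAnosovLift (surf S) T) (h0 : Module.finrank ℝ TFib.base.V = 0)
    (hκ : ∀ i, (N i).flat.Reg (κ i)) (hR : RV (fun i => (N i).flat) D D' T₀ κ e) :
    ∃ q, NL (fun i => (N i).flat) T (tu D T) (tu D' T.symm) κ κ e = {q} := by
  obtain ⟨m, γ, δ, hc⟩ := hR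
  obtain ⟨T', g, H, hfix, hl, hT', hH, hstep⟩ := exists_isFix_lev h hA hc
  have hW := subsingleton_W h0
  have hU : ∀ i, κ i ∈ (N i).U := fun i => (hκ i).1
  have hsh := fun z y t s => th0_shift h z y t s
  obtain ⟨q, hq, -⟩ := existsUnique_lev N D.tw h.hyp hW hfix hU hsh hstep
  have hinv := NL_lift (F := fun i => (N i).flat) h hc hl hT' hH
  have hHκ : ∀ i, H i (κ i) = κ i := fun i => by
    have h1 : (N i).flat.Eqv (κ i) (H i (κ i)) := by
      rw [hH]
      exact hc.eqv i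
    exact Flat.eq_of_zero (F := (N i).flat) (hU i) h1.1 h1.2
  refine ⟨q, Subset.antisymm (fun x hxR => ?_) ?_⟩
  · have hz : ∀ i : ℤ, (T' ^ i) x ∈ NL (fun i => (N i).flat) T (tu D T) (tu D' T.symm) κ κ e := by
      intro j
      induction j using Int.induction_on with
      | zero => exact hxR
      | succ j ih =>
        have e : (T' ^ ((j : ℤ) + 1)) x = T' ((T' ^ (j : ℤ)) x) := by
          rw [add_comm, zpow_one_add]
          rfl
        rw [e, hinv]
        exact ih
      | pred j ih =>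
        have e : (T' ^ (-(j : ℤ))) x = T' ((T' ^ (-(j : ℤ) - 1)) x) := by
          have e2 : -(j : ℤ) = 1 + (-(j : ℤ) - 1) := by ring
          conv_lhs => rw [e2, zpow_one_add]
          rfl
        rw [e, hinv] at ih
        exact ih
    refine eq_of_bdd_orbit hA hfix.pos (IsFix.liftOf hfix) (fun j hj c hc => ?_)
      (isCompact_NL (F := fun i => (N i).flat) h h0 hκ) hz
    exact fixed_pow N D.tw h.hyp hW hfix hU hsh hstep hq hj hc
  · intro x hx
    rw [mem_singleton_iff.1 hx]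
    have hqN : q ∈ NN (fun i => (N i).flat) T κ κ := by
      intro i
      have hq' : T'^[1] q = q := hq
      have hl' : 1 < ((N i).flat).l ^ (m * 1) :=
        one_lt_pow₀ (N i).flat.one_lt (Nat.mul_pos hfix.pos one_pos).ne'
      have h1 := DU_iterate (F := fun i => (N i).flat) h.set hl (hHκ i) 1 q
      have h2 := DS_iterate (F := fun i => (N i).flat) h.set hl (hHκ i) 1 q
      rw [hq'] at h1 h2
      have h3 := (isTree_DU (F := fun i => (N i).flat) h.set i).nonneg (Sum.inl (κ i)) (Sum.inr q)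
      have h4 := (isTree_DS (F := fun i => (N i).flat) h.set i).nonneg (Sum.inl (κ i)) (Sum.inr q)
      constructor <;> nlinarith
    have e1 := hc.u T h.set q fun i => (hqN i).1
    have e2 := hc.s T h.set q fun i => (hqN i).2
    rw [← hT', hq] at e1 e2
    exact ⟨hqN, Subtype.ext (sub_eq_zero.1 (Lin.one_sub_injective h.hyp hfix.pos e1.symm)),
      Subtype.ext (sub_eq_zero.1 (Lin.one_sub_injective (hyp' h) hfix.pos e2.symm))⟩

end Pool.Agent.ANO5.A3.Cnt
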