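import Pool.Agent.ANO5.A3.Grp.Index
import Pool.Agent.ANO5.A2.Idx2.Fix

/-!
# ANO5, module Cnt: exactly one fixed point

If the lift `g ∘ G₀` of the model has exactly one fixed point, nondegenerate, then the lift
`g ∘ F^M` of the Anosov map has exactly one fixed point.
-/

set_option autoImplicit false
set_option linter.unusedSectionVars false

open Set Filter Topology
open scoped UpperHalfPlane MatrixGroups

namespace Pool.Agent.ANO5.A3.Cnt

variable [Fib]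

open Pool.Agent.ANO5.A1 Pool.Agent.ANO5.A2 Pool.Agent.ANO5.A2.EqIdx Pool.Agent.ANO5.A3.Grp

variable {r : ℕ} {S : Fin r → ClosedSurface} {F : A1.X r ≃ₜ A1.X r}

private theorem subsingleton_Uniq (h : ¬ Nontrivial (A1.E r)) : Subsingleton (A1.X r) := by
  have h1 : Subsingleton (A1.E r) := not_nontrivial_iff_subsingleton.1 h
  exact ⟨fun a b => by
    rw [← A1.Idx.ofE_toE a, ← A1.Idx.ofE_toE b, Subsingleton.elim (toE a) (toE b)]⟩

private theorem near_Uniq {M : ℕ} {G₀ : A1.X r → A1.X r}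
    (h₀ : Continuous G₀) (h : Homotopic S G₀ (F ^ M : A1.X r ≃ₜ A1.X r))
    {g : Equiv.Perm (A1.X r)} (hg : g ∈ Deck S) :
    ∃ c : ℝ, ∀ x, dist ((g ∘ (F ^ M : A1.X r ≃ₜ A1.X r)) x) ((g ∘ G₀) x) ≤ c := by
  obtain ⟨C, hC⟩ := A2.Idx.near h h₀ (F ^ M).continuous
  refine ⟨C, fun p => ?_⟩
  show dist (g ((F ^ M) p)) (g (G₀ p)) ≤ C
  rw [A2.Idx.deck_dist (S := S) hg]
  exact hC p

private theorem comp_Uniq (hF : IsAnosovLift S F) {M : ℕ} (hM : 0 < M)
    {G₀ : A1.X r → A1.X r}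
    (h₀ : Continuous G₀) (h : Homotopic S G₀ (F ^ M : A1.X r ≃ₜ A1.X r))
    {g : Equiv.Perm (A1.X r)} (hg : g ∈ Deck S) {w : A1.X r}
    (hw : g (G₀ w) = w) (huniq : ∀ w', g (G₀ w') = w' → w' = w) :
    A2.Idx2.Comp (g ∘ (F ^ M : A1.X r ≃ₜ A1.X r)) (g ∘ G₀) := by
  refine ⟨A2.Idx.contDiffOn_T hF M hg, (A2.Idx.deck_continuous (S := S) hg).comp h₀, ?_,
    near_Uniq h₀ h hg, ?_⟩
  · obtain ⟨σ, hσ, hs⟩ := A2.Idx.exists_sign hF hM (g := g) hg
    exact ⟨σ, hσ, hs⟩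
  · intro C
    obtain ⟨L, hL, hLc⟩ := cpt h₀ (normal_of_homotopic h).1 hg C
    refine ⟨L, hL, fun p hp => ?_⟩
    obtain ⟨⟨a, ha⟩, hap⟩ := hLc p hp
    have h1 : g (G₀ (a w)) = a w := by
      have h2 := ha.2 w
      simp only [Function.comp_apply] at h2
      rw [h2, hw]
    have h2 : a = 1 := eq_of_apply_eq (S := S) (p := w) ha.1 (one_mem _) (by
      rw [huniq _ h1, Equiv.Perm.one_apply])
    subst h2
    exact hap

/-- if the lift of the model has exactly one fixed point, nondegenerate, then the lift of the Anosov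
map has exactly one fixed point -/
theorem existsUnique (hF : IsAnosovLift S F) {M : ℕ} (hM : 0 < M) {G₀ : A1.X r → A1.X r}
    (h₀ : Continuous G₀) (h : Homotopic S G₀ (F ^ M : A1.X r ≃ₜ A1.X r))
    {g : Equiv.Perm (A1.X r)} (hg : g ∈ Deck S) (hnd : Nondeg (g ∘ G₀)) {w : A1.X r}
    (hw : g (G₀ w) = w) (huniq : ∀ w', g (G₀ w') = w' → w' = w) :
    ∃! q, g ((F ^ M) q) = q := by
  by_cases hrk : Nontrivial (A1.E r)
  swap
  · have := subsingleton_Uniq hrk
    exact ⟨w, Subsingleton.elim _ _, fun _ _ => Subsingleton.elim _ _⟩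
  obtain ⟨h1, h2⟩ := hnd w hw
  exact (comp_Uniq hF hM h₀ h hg hw huniq).existsUnique hw huniq h1 h2

end Pool.Agent.ANO5.A3.Cnt
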