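import Pool.Agent.ANO5.A3.Cnt.Lev
import Pool.Agent.ANO5.A3.Cnt.Uniq

/-!
# ANO5, module Cnt: the unique fixed point over a regular type with a level

`base.W` is a point.  `T' = g ∘ Φ^m` preserves the regular type `κ`; the model changes `θ - c` by
`A^m` on the points of the type.  Then the model has exactly one fixed point
(`z = κ`, `θ = c`), so `T'` and its powers have exactly one fixed point.
-/

set_option autoImplicit false

open Set Filter Topology
open scoped UpperHalfPlane MatrixGroups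

namespace Pool.Agent.ANO5.A3.Cnt

open Pool.Agent.ANO3 Pool.Agent.ANO3.Cnt Pool.Agent.ANO5.Conc Pool.Agent.ANO5.A1
  Pool.Agent.ANO5.A2 Pool.Agent.ANO5.A3.Grp Pool.Agent.ANO5.Hyp

variable [TFib] {r : ℕ} {S : Fin r → SurfaceMap} {A : Matrix (Fin TFib.k) (Fin TFib.k) ℤ}
  {τ : Tor.B r → Fin TFib.k → ℝ} {Φ T : X r ≃ₜ X r} {m : ℕ} {g : Equiv.Perm (X r)}
  {κ : Fin r → ℍ} {F : ∀ i, Flat (S i)} {θ : X r → Fin TFib.k → ℝ} {c : Fin TFib.k → ℝ}

/-- The powers of `T'`. -/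
theorem step_pow (h : IsFix F (Tor.skew S A τ) Φ T m g κ)
    (hstep : ∀ x : X r, EqvS F x.1 κ →
      θ (g ((Tor.skew S A τ)^[m] x)) - c = Lin.lin (A ^ m) (θ x - c)) {j : ℕ} (hj : 0 < j) :
    ∃ g' : Equiv.Perm (X r), IsFix F (Tor.skew S A τ) Φ (T ^ j) (m * j) g' κ ∧
      ∀ x : X r, EqvS F x.1 κ →
        θ (g' ((Tor.skew S A τ)^[m * j] x)) - c = Lin.lin (A ^ (m * j)) (θ x - c) := by
  obtain ⟨g', h1, h2⟩ := h.pow hj
  refine ⟨g', h1, fun x hx => ?_⟩
  rw [← h2]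
  have key : ∀ n : ℕ, EqvS F ((g ∘ (Tor.skew S A τ)^[m])^[n] x).1 κ ∧
      θ ((g ∘ (Tor.skew S A τ)^[m])^[n] x) - c = Lin.lin (A ^ (m * n)) (θ x - c) := by
    intro n
    induction n with
    | zero =>
      refine ⟨hx, ?_⟩
      rw [Nat.mul_zero, pow_zero, Lin.lin_one]
      rfl
    | succ n ih =>
      rw [Function.iterate_succ_apply']
      refine ⟨h.fix _ ih.1, ?_⟩
      have h3 := hstep _ ih.1
      rw [ih.2] at h3
      rw [Nat.mul_succ, add_comm (m * n) m, pow_add, Lin.lin_mul]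
      exact h3
  exact (key j).2

/-- There is exactly one fixed point of `T'`. -/
theorem existsUnique_lev (N : ∀ i, NormalForm (S i)) (hτ : Tor.IsTwist (surf S) τ)
    (hA : Pool.Agent.ANO.IsHyperbolicMatrix A) (hW : Subsingleton TFib.base.W)
    (h : IsFix (fun i => (N i).flat) (Tor.skew S A τ) Φ T m g κ)
    (hκ : ∀ i, κ i ∈ (N i).U)
    (hshift : ∀ (z : Fin r → ℍ) (y : TFib.base.W) (t s : Fin TFib.k → ℝ),
      θ (z, (y, t + s)) = θ (z, (y, t)) + s)
    (hstep : ∀ x : X r, EqvS (fun i => (N i).flat) x.1 κ →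
      θ (g ((Tor.skew S A τ)^[m] x)) - c = Lin.lin (A ^ m) (θ x - c)) :
    ∃! q, T q = q := by
  obtain ⟨φ, -, hmod⟩ := exists_model' N hτ h.hom
  obtain ⟨G, hGc, hhom, hnd, hfix⟩ := hmod m h.pos (det_one_sub_ne hA h.pos)
  have heq : ∀ z : Fin r → ℍ, EqvS (fun i => (N i).flat) z κ → z = κ := fun z hz =>
    funext fun i => Flat.eq_of_zero (F := (N i).flat) (hκ i)
      (((N i).flat.isTree_u.symm _ _).trans (hz i).1)
      (((N i).flat.isTree_s.symm _ _).trans (hz i).2)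
  have hfix' : ∀ x : X r, g (G x) = x ↔ x.1 = κ ∧ θ x = c := by
    intro x
    rw [hfix g h.deck x]
    constructor
    · rintro ⟨h1, -⟩
      have h2 : (1 : Equiv.Perm (X r)) (g ((Tor.skew S A τ)^[m] x)) = x := h1
      have h3 := h.type_of_fix (one_mem _) h2
      have h4 := hstep x h3
      rw [h1] at h4
      refine ⟨heq _ h3, ?_⟩
      rw [Lin.lin_pow] at h4
      exact sub_eq_zero.1 (Lin.one_sub_injective hA h.pos h4.symm)
    · rintro ⟨h1, h2⟩
      refine ⟨?_, Subsingleton.elim _ _⟩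
      have h3 : EqvS (fun i => (N i).flat) x.1 κ := by
        rw [h1]
        exact EqvS.refl κ
      have h4 := hstep x h3
      have h5 : (g ((Tor.skew S A τ)^[m] x)).1 = x.1 := by
        rw [h1]
        exact heq _ (h.fix x h3)
      rw [h2, sub_self, map_zero, sub_eq_zero, ← h2] at h4
      have h6 : ∀ x : X r, θ x = θ (x.1, (x.2.1, 0)) + x.2.2 := fun x => by
        rw [← hshift, zero_add]
        rfl
      rw [h6 (g ((Tor.skew S A τ)^[m] x)), h6 x, h5] at h4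
      have h7 : (g ((Tor.skew S A τ)^[m] x)).2.1 = x.2.1 := Subsingleton.elim _ _
      rw [h7] at h4
      exact Prod.ext h5 (Prod.ext h7 (add_left_cancel h4))
  obtain ⟨y₀⟩ : Nonempty TFib.base.W := ⟨TFib.base.crd.symm 0⟩
  obtain ⟨w, hw⟩ : ∃ w : X r, w = (κ, (y₀, c - θ (κ, (y₀, 0)))) := ⟨_, rfl⟩
  have hw1 : w.1 = κ ∧ θ w = c := by
    rw [hw]
    refine ⟨rfl, ?_⟩
    have h1 := hshift κ y₀ 0 (c - θ (κ, (y₀, 0)))
    rw [zero_add] at h1
    rw [h1]
    abel
  have huniq : ∀ w' : X r, g (G w') = w' → w' = w := by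
    intro w' hw'
    have h1 := (hfix' w').1 hw'
    have h6 : ∀ x : X r, θ x = θ (x.1, (x.2.1, 0)) + x.2.2 := fun x => by
      rw [← hshift, zero_add]
      rfl
    have h7 : w'.2.1 = w.2.1 := Subsingleton.elim _ _
    have h8 : w'.1 = w.1 := h1.1.trans hw1.1.symm
    have h9 : θ w' = θ w := h1.2.trans hw1.2.symm
    rw [h6 w', h6 w, h7, h8] at h9
    exact Prod.ext h8 (Prod.ext h7 (add_left_cancel h9))
  obtain ⟨q, hq, huq⟩ := Pool.Agent.ANO5.A3.Cnt.existsUnique h.lift h.pos hGc hhom h.deck (hnd g h.deck)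
    ((hfix' w).2 hw1) huniq
  exact ⟨q, (h.eq q).trans hq, fun q' hq' => huq q' ((h.eq q').symm.trans hq')⟩

/-- The powers have the same fixed point. -/
theorem fixed_pow (N : ∀ i, NormalForm (S i)) (hτ : Tor.IsTwist (surf S) τ)
    (hA : Pool.Agent.ANO.IsHyperbolicMatrix A) (hW : Subsingleton TFib.base.W)
    (h : IsFix (fun i => (N i).flat) (Tor.skew S A τ) Φ T m g κ)
    (hκ : ∀ i, κ i ∈ (N i).U)
    (hshift : ∀ (z : Fin r → ℍ) (y : TFib.base.W) (t s : Fin TFib.k → ℝ),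
      θ (z, (y, t + s)) = θ (z, (y, t)) + s)
    (hstep : ∀ x : X r, EqvS (fun i => (N i).flat) x.1 κ →
      θ (g ((Tor.skew S A τ)^[m] x)) - c = Lin.lin (A ^ m) (θ x - c))
    {q : X r} (hq : T q = q) {j : ℕ} (hj : 0 < j) {x : X r} (hx : (T ^ j) x = x) : x = q := by
  obtain ⟨g', h', hstep'⟩ := step_pow h hstep hj
  have hq' : (T ^ j) q = q := by
    rw [A2.Dim.pow_apply]
    exact Function.iterate_fixed hq j
  exact (existsUnique_lev N hτ hA hW h' hκ hshift hstep').unique hx hq'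

end Pool.Agent.ANO5.A3.Cnt
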